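import Pool.Agent.Lib.MP_09eaec_ag.Mg.G044

/-!
# Residues at a place; there are infinitely many places
-/

set_option autoImplicit false

namespace Pool.Agent.MP_09eaec

open IntermediateField Polynomial

universe u v

variable {k : Type u} {K : Type v} [Field k] [Field K] [Algebra k K] [IsAlgClosed k]

lemma exists_algebraMap_eq {x : K} (hx : ¬ Transcendental k x) : ∃ c : k, algebraMap k K c = x := by
  rw [Transcendental, not_not] at hx
  have hint : IsIntegral k x := hx.isIntegral
  have hi : Algebra.IsIntegral k (Algebra.adjoin k {x}) :=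
    Algebra.IsIntegral.adjoin (by simpa using hint)
  have hb := IsAlgClosed.algebraMap_bijective_of_isIntegral (k := k)
    (K := Algebra.adjoin k {x})
  obtain ⟨c, hc⟩ := hb.2 ⟨x, Algebra.self_mem_adjoin_singleton k x⟩
  exact ⟨c, congrArg Subtype.val hc⟩

lemma ord_aeval_eq_zero (P : Place k K) {f : K} (hf : Transcendental k f)
    (h : ∀ c : k, P.ord (f - algebraMap k K c) = 0) :
    ∀ (n : ℕ) (p : k[X]), p.natDegree = n → P.ord (aeval f p) = 0 := by
  intro n
  induction n with
  | zero =>
    intro p hp
    rw [Polynomial.natDegree_eq_zero] at hp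
    obtain ⟨c, rfl⟩ := hp
    rw [aeval_C]; exact P.ord_algebraMap c
  | succ n ih =>
    intro p hp
    have hp0 : p ≠ 0 := by rintro rfl; simp at hp
    obtain ⟨a, ha⟩ := IsAlgClosed.exists_root p (by
      rw [degree_eq_natDegree hp0, hp]; exact_mod_cast Nat.succ_ne_zero n)
    obtain ⟨q, hq⟩ := dvd_iff_isRoot.2 ha
    have hq0 : q ≠ 0 := by rintro rfl; rw [mul_zero] at hq; exact hp0 hq
    have hdeg : q.natDegree = n := by
      rw [hq, natDegree_mul (X_sub_C_ne_zero a) hq0, natDegree_X_sub_C] at hp; omega
    have h1 : aeval f (X - C a) ≠ (0 : K) := by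
      intro h0; exact X_sub_C_ne_zero a ((transcendental_iff.1 hf) _ h0)
    have h2 : aeval f q ≠ (0 : K) := by
      intro h0; exact hq0 ((transcendental_iff.1 hf) _ h0)
    rw [hq, map_mul, P.ord_mul _ _ h1 h2, ih q hdeg, map_sub, aeval_X, aeval_C, h a, add_zero]

theorem exists_residue (hK : IsCurveField k K) (P : Place k K) {f : K} (hf : P.IsInt f) :
    ∃ c : k, f - algebraMap k K c = 0 ∨ 0 < P.ord (f - algebraMap k K c) := by
  by_contra hcon
  push Not at hcon
  have hft : Transcendental k f := by
    by_contra h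
    obtain ⟨c, hc⟩ := exists_algebraMap_eq h
    exact (hcon c).1 (by rw [hc, sub_self])
  have hz : ∀ c : k, P.ord (f - algebraMap k K c) = 0 := by
    intro c
    have h1 : P.IsInt (f - algebraMap k K c) := by
      rw [sub_eq_add_neg]
      exact P.isInt_add hf (P.isInt_neg (P.isInt_algebraMap c))
    have h2 := (P.isInt_iff (hcon c).1).1 h1
    have h3 := (hcon c).2
    omega
  have hadj : ∀ y : k⟮f⟯, P.ord (y : K) = 0 := by
    intro y
    obtain ⟨r, s, hrs⟩ := (IntermediateField.mem_adjoin_simple_iff k (y : K)).1 y.2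
    by_cases hr : aeval f r = (0 : K)
    · rw [hrs, hr, zero_div, P.ord_zero]
    by_cases hs : aeval f s = (0 : K)
    · rw [hrs, hs, div_zero, P.ord_zero]
    rw [hrs, P.ord_div _ _ hr hs, ord_aeval_eq_zero P hft hz _ r rfl,
      ord_aeval_eq_zero P hft hz _ s rfl, sub_zero]
  obtain ⟨π, hπ0, hπ⟩ := P.exists_ord_eq_one
  have hfd := hK.finiteDimensional hft
  have hint : IsIntegral k⟮f⟯ π := Algebra.IsIntegral.isIntegral π
  set p := minpoly k⟮f⟯ π with hp
  have hp0 : p.coeff 0 ≠ 0 := minpoly.coeff_zero_ne_zero hint hπ0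
  have hev : aeval π p = 0 := minpoly.aeval _ _
  have h1 : π * aeval π p.divX + ((p.coeff 0 : k⟮f⟯) : K) = 0 := by
    have h9 := congrArg (aeval π) (Polynomial.X_mul_divX_add p)
    rw [map_add, map_mul, aeval_X, aeval_C, hev] at h9
    exact h9
  have h2 : P.IsInt (aeval π p.divX) := by
    rw [aeval_eq_sum_range]
    apply P.isInt_sum
    intro i _
    rw [Algebra.smul_def]
    apply P.isInt_mul
    · exact Or.inr (by rw [show (algebraMap k⟮f⟯ K) (p.divX.coeff i) =
        ((p.divX.coeff i : k⟮f⟯) : K) from rfl, hadj])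
    · exact Or.inr (by rw [P.ord_pow π hπ0, hπ]; simp)
  have h3 : ((p.coeff 0 : k⟮f⟯) : K) ≠ 0 := by
    intro h; exact hp0 (Subtype.ext h)
  have h4 : aeval π p.divX ≠ (0 : K) := by
    intro h
    rw [h, mul_zero, zero_add] at h1
    exact h3 h1
  have h5 : ((p.coeff 0 : k⟮f⟯) : K) = - (π * aeval π p.divX) := by
    linear_combination h1
  have h6 := hadj (p.coeff 0)
  rw [h5, P.ord_neg, P.ord_mul _ _ hπ0 h4, hπ] at h6
  have h7 := (P.isInt_iff h4).1 h2
  omega

theorem infinite_place [CharZero k] (hK : IsCurveField k K) :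
    (Set.univ : Set (Place k K)).Infinite := by
  obtain ⟨x, hx⟩ := hK.exists_transcendental
  have h1 : ∀ c : k, ∃ P : Place k K, 0 < P.ord (x - algebraMap k K c) := by
    intro c
    have ht : Transcendental k (x - algebraMap k K c) := by
      intro h
      apply hx
      have := h.add (isAlgebraic_algebraMap (R := k) (A := K) c)
      simpa using this
    have h2 := (zeroSum hK ht).2
    by_contra hcon
    push Not at hcon
    have h3 : {P : Place k K | 0 < P.ord (x - algebraMap k K c)} = ∅ := by
      ext P; simpa using hcon P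
    rw [h3, finsum_mem_empty] at h2
    have hfd := hK.finiteDimensional ht
    have h4 : 0 < Module.finrank k⟮x - algebraMap k K c⟯ K := Module.finrank_pos
    omega
  choose F hF using h1
  have hinj : Function.Injective F := by
    intro c c' hcc
    by_contra hne
    have ha := hF c
    have hb := hF c'
    rw [← hcc] at hb
    have h5 : (x - algebraMap k K c) ≠ 0 := by
      intro h; rw [h, Place.ord_zero] at ha; omega
    have h6 : -(x - algebraMap k K c') ≠ 0 := by
      intro h
      rw [neg_eq_zero] at h
      rw [h, Place.ord_zero] at hb; omega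
    have h7 : (x - algebraMap k K c) + -(x - algebraMap k K c') = algebraMap k K (c' - c) := by
      rw [map_sub]; ring
    have h8 : algebraMap k K (c' - c) ≠ 0 := by
      rw [Ne, map_eq_zero_iff _ (algebraMap k K).injective, sub_eq_zero]
      exact fun h => hne h.symm
    have h9 := (F c).ord_add _ _ h5 h6 (by rw [h7]; exact h8)
    rw [h7, (F c).ord_algebraMap, (F c).ord_neg] at h9
    have := lt_min ha hb
    omega
  have hinf : Infinite k := IsAlgClosed.instInfinite
  have : Infinite (Place k K) := Infinite.of_injective F hinj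
  exact Set.infinite_univ

end Pool.Agent.MP_09eaec
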