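import Pool.Agent.Lib.MP_09eaec_ag.Place

/-!
# Definitions: vector bundles, coherent systems, α-stability, the gonality sequence

`K` is the function field of a smooth projective curve `C` over the algebraically closed field `k`;
the points of `C` are the places of `K/k`.
-/

set_option autoImplicit false

namespace Pool.Agent.MP_09eaec

open Matrix

universe u v

/-- `K` is the function field of a curve over `k`: a finitely generated field extension of `k` of
transcendence degree one. -/
structure IsCurveField (k : Type u) (K : Type v) [Field k] [Field K] [Algebra k K] : Prop where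
  fg : (⊤ : IntermediateField k K).FG
  trdeg_eq_one : Algebra.trdeg k K = 1

/-- A vector bundle of rank `n` on the curve with function field `K`, given by its generic fibre
`K^n` and its stalks: the stalk at the point `P` is the `O_P`-lattice `g_P O_P^n ⊆ K^n`, where
`g_P ∈ GL_n(K)`, and `g_P = 1` for all but finitely many points. -/
structure Bundle (k : Type u) (K : Type v) [Field k] [Field K] [Algebra k K] (n : ℕ) where
  g : Place k K → Matrix (Fin n) (Fin n) K
  det_ne_zero : ∀ P, (g P).det ≠ 0
  finite : {P | g P ≠ 1}.Finite

variable {k : Type u} {K : Type v} [Field k] [Field K] [Algebra k K]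

namespace Bundle

variable {n : ℕ}

/-- `x` belongs to the stalk at `P` of the bundle: `x ∈ g_P O_P^n`. -/
def Mem (E : Bundle k K n) (P : Place k K) (x : Fin n → K) : Prop :=
  ∀ i, P.IsInt (((E.g P)⁻¹ *ᵥ x) i)

/-- The degree of a vector bundle. -/
noncomputable def deg (E : Bundle k K n) : ℤ := - ∑ᶠ P : Place k K, P.ord (E.g P).det

end Bundle

/-- `(E, V)` is a coherent system: the elements of `V` are global sections of `E`. -/
def IsSystem {n : ℕ} (E : Bundle k K n) (V : Submodule k (Fin n → K)) : Prop :=
  ∀ v ∈ V, ∀ P, E.Mem P v

/-- `(F, j, W)` is a coherent subsystem of `(E, V)`: `j` is an injective homomorphism from the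
vector bundle `F` (of rank `m`) to `E`, and `W` consists of elements of `V` which are (images of)
global sections of `F`. -/
structure IsSubsystem {n m : ℕ} (E : Bundle k K n) (V : Submodule k (Fin n → K))
    (F : Bundle k K m) (j : (Fin m → K) →ₗ[K] (Fin n → K)) (W : Submodule k (Fin n → K)) :
    Prop where
  injective : Function.Injective j
  map_mem : ∀ P x, F.Mem P x → E.Mem P (j x)
  le : W ≤ V
  sections : ∀ w ∈ W, ∃ x, j x = w ∧ ∀ P, F.Mem P x

/-- The subsystem is everything. -/
def IsWhole {n m : ℕ} (E : Bundle k K n) (V : Submodule k (Fin n → K))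
    (F : Bundle k K m) (j : (Fin m → K) →ₗ[K] (Fin n → K)) (W : Submodule k (Fin n → K)) : Prop :=
  (∀ P y, E.Mem P y → ∃ x, F.Mem P x ∧ j x = y) ∧ W = V

/-- `α`-stability of a coherent system `(E, V)` of rank `n`: the `α`-slope
`(deg F + α dim W) / rk F` of every proper coherent subsystem `(F, W)` with `F ≠ 0` is smaller than
the `α`-slope of `(E, V)`. -/
def IsStable (α : ℝ) {n : ℕ} (E : Bundle k K n) (V : Submodule k (Fin n → K)) : Prop :=
  ∀ (m : ℕ) (F : Bundle k K m) (j : (Fin m → K) →ₗ[K] (Fin n → K))
    (W : Submodule k (Fin n → K)), 0 < m → IsSubsystem E V F j W → ¬ IsWhole E V F j W →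
    ((F.deg : ℝ) + α * Module.finrank k W) / m < ((E.deg : ℝ) + α * Module.finrank k V) / n

variable (k K)

/-- The degrees of the `α`-stable coherent systems with `α > 0`, of rank `n` and with a
`d`-dimensional space of sections. -/
def stableDegrees (n d : ℕ) : Set ℤ :=
  {e | ∃ α : ℝ, 0 < α ∧ ∃ (E : Bundle k K n) (V : Submodule k (Fin n → K)),
    IsSystem E V ∧ Module.finrank k V = d ∧ E.deg = e ∧ IsStable α E V}

/-- The degrees of the line bundles with at least `r + 1` linearly independent sections. -/
def linearSeriesDegrees (r : ℕ) : Set ℤ :=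
  {e | ∃ (L : Bundle k K 1) (V : Submodule k (Fin 1 → K)),
    IsSystem L V ∧ Module.finrank k V = r + 1 ∧ L.deg = e}

/-- The gonality sequence: the smallest degree of a line bundle with at least `r + 1` linearly
independent sections. -/
noncomputable def gon (r : ℕ) : ℤ := sInf (linearSeriesDegrees k K r)

end Pool.Agent.MP_09eaec
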