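import Pool.Agent.Lib.MP_09eaec_ag.Orders

/-!
# The gonality sequence
-/

set_option autoImplicit false

namespace Pool.Agent.MP_09eaec

open Function Matrix

universe u v

variable {k : Type u} {K : Type v} [Field k] [Field K] [Algebra k K]

namespace Bundle

lemma hasFiniteSupport {n : ℕ} (E : Bundle k K n) :
    HasFiniteSupport (fun P : Place k K => P.ord (E.g P).det) := by
  refine E.finite.subset ?_
  intro P hP h
  apply hP
  show P.ord (E.g P).det = 0
  rw [h, det_one, P.ord_one]

lemma mem_one_iff (L : Bundle k K 1) (P : Place k K) (x : Fin 1 → K) :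
    L.Mem P x ↔ P.IsInt ((L.g P).det⁻¹ * x 0) := by
  have h : ((L.g P)⁻¹ *ᵥ x) 0 = (L.g P).det⁻¹ * x 0 := by
    rw [inv_subsingleton, mulVec_diagonal, Ring.inverse_eq_inv', det_unique]
    rfl
  unfold Mem
  constructor
  · intro h1; rw [← h]; exact h1 0
  · intro h1 i
    have : i = 0 := Subsingleton.elim _ _
    rw [this, h]; exact h1

lemma ord_le_of_mem (L : Bundle k K 1) (P : Place k K) (x : Fin 1 → K) (hx : L.Mem P x)
    (h0 : x 0 ≠ 0) : P.ord (L.g P).det ≤ P.ord (x 0) := by
  rw [mem_one_iff] at hx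
  have h1 := L.det_ne_zero P
  rw [P.isInt_iff (mul_ne_zero (inv_ne_zero h1) h0), P.ord_mul _ _ (inv_ne_zero h1) h0,
    P.ord_inv] at hx
  omega

/-- The line bundle with given divisor. -/
noncomputable def line (m : Place k K → ℤ) (hm : HasFiniteSupport m) : Bundle k K 1 where
  g P := Matrix.of fun _ _ => (P.exists_ord_eq_one.choose) ^ (m P)
  det_ne_zero P := by
    rw [det_unique, of_apply]
    exact zpow_ne_zero _ P.exists_ord_eq_one.choose_spec.1
  finite := by
    refine hm.subset ?_
    intro P hP h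
    apply hP
    have h' : m P = 0 := h
    ext i j
    rw [Subsingleton.elim i j, of_apply, h', zpow_zero, one_apply_eq]

lemma ord_det_line (m : Place k K → ℤ) (hm : HasFiniteSupport m) (P : Place k K) :
    P.ord ((line m hm).g P).det = m P := by
  have h1 : ((line m hm).g P).det = (P.exists_ord_eq_one.choose) ^ (m P) := by
    rw [det_unique]; rfl
  rw [h1, P.ord_zpow P.exists_ord_eq_one.choose_spec.1, P.exists_ord_eq_one.choose_spec.2, mul_one]

lemma deg_line (m : Place k K → ℤ) (hm : HasFiniteSupport m) :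
    (line m hm).deg = - ∑ᶠ P, m P := by
  unfold deg
  rw [finsum_congr (fun P => ord_det_line m hm P)]

end Bundle

/-- The evaluation `K^1 → K`. -/
noncomputable def ev1 (k : Type u) (K : Type v) [Field k] [Field K] [Algebra k K] :
    (Fin 1 → K) ≃ₗ[k] K := LinearEquiv.funUnique (Fin 1) k K

lemma ev1_apply (x : Fin 1 → K) : ev1 k K x = x 0 := rfl

section

variable [IsAlgClosed k] [CharZero k]

lemma hasFiniteSupport_ord (hK : IsCurveField k K) (x : K) :
    HasFiniteSupport (fun P : Place k K => P.ord x) := finite_ord_ne_zero hK x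

lemma hasFiniteSupport_minOrd (hK : IsCurveField k K) {r : ℕ} (h : Fin (r + 1) → K) :
    HasFiniteSupport (fun P : Place k K => P.minOrd h) := by
  have h1 : (⋃ j, {P : Place k K | P.ord (h j) ≠ 0}).Finite :=
    Set.finite_iUnion fun j => finite_ord_ne_zero hK (h j)
  refine h1.subset ?_
  intro P hP
  obtain ⟨j, hj⟩ := P.exists_minOrd h
  rw [Set.mem_iUnion]
  refine ⟨j, ?_⟩
  show P.ord (h j) ≠ 0
  rw [← hj]; exact hP

lemma deg_nonneg_of_mem (hK : IsCurveField k K) (L : Bundle k K 1) (x : Fin 1 → K)
    (hx : ∀ P, L.Mem P x) (h0 : x 0 ≠ 0) : 0 ≤ L.deg := by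
  have h1 : ∑ᶠ P : Place k K, P.ord (L.g P).det ≤ ∑ᶠ P : Place k K, P.ord (x 0) :=
    finsum_le_finsum' L.hasFiniteSupport (hasFiniteSupport_ord hK _)
      (fun P => L.ord_le_of_mem P x (hx P) h0)
  rw [finsum_ord hK] at h1
  unfold Bundle.deg
  omega

lemma nonneg_of_mem (hK : IsCurveField k K) (r : ℕ) (d : ℤ)
    (hd : d ∈ linearSeriesDegrees k K r) : 0 ≤ d := by
  obtain ⟨L, V, hV, hr, rfl⟩ := hd
  have hne : V ≠ ⊥ := by
    intro h
    rw [h, finrank_bot] at hr
    omega
  obtain ⟨v, hv, hv0⟩ := V.exists_mem_ne_zero_of_ne_bot hne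
  refine deg_nonneg_of_mem hK L v (hV v hv) ?_
  intro h
  apply hv0
  ext i
  rw [Subsingleton.elim i 0, h]; rfl

lemma bddBelow_linearSeriesDegrees (hK : IsCurveField k K) (r : ℕ) :
    BddBelow (linearSeriesDegrees k K r) :=
  ⟨0, fun d hd => nonneg_of_mem hK r d hd⟩

omit [IsAlgClosed k] [CharZero k] in
lemma mem_linearSeriesDegrees {r : ℕ} (f : Fin (r + 1) → K)
    (hf : LinearIndependent k f) (m : Place k K → ℤ) (hm : HasFiniteSupport m)
    (hle : ∀ P j, m P ≤ P.ord (f j)) : - ∑ᶠ P, m P ∈ linearSeriesDegrees k K r := by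
  refine ⟨Bundle.line m hm, Submodule.span k (Set.range (fun j => (ev1 k K).symm (f j))), ?_, ?_,
    Bundle.deg_line m hm⟩
  · intro v hv P
    rw [Bundle.mem_one_iff]
    have h1 : ev1 k K v ∈ P.filt (m P) := by
      have h2 : Submodule.span k (Set.range (fun j => (ev1 k K).symm (f j))) ≤
          (P.filt (m P)).comap (ev1 k K).toLinearMap := by
        rw [Submodule.span_le]
        rintro _ ⟨j, rfl⟩
        show ev1 k K ((ev1 k K).symm (f j)) ∈ P.filt (m P)
        rw [LinearEquiv.apply_symm_apply]
        exact Or.inr (hle P j)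
      exact h2 hv
    rw [ev1_apply] at h1
    rcases h1 with h1 | h1
    · left; rw [h1, mul_zero]
    · by_cases h0 : v 0 = 0
      · left; rw [h0, mul_zero]
      right
      rw [P.ord_mul _ _ (inv_ne_zero ((Bundle.line m hm).det_ne_zero P)) h0, P.ord_inv,
        Bundle.ord_det_line]
      omega
  · have h1 := finrank_span_eq_card (hf.map' (ev1 k K).symm.toLinearMap (LinearEquiv.ker _))
    rw [Fintype.card_fin] at h1
    exact h1

/-- Upper bounds for the gonality sequence. -/
theorem gon_le (hK : IsCurveField k K) {r : ℕ} (f : Fin (r + 1) → K)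
    (hf : LinearIndependent k f) (m : Place k K → ℤ) (hm : HasFiniteSupport m)
    (hle : ∀ P j, m P ≤ P.ord (f j)) : gon k K r ≤ - ∑ᶠ P, m P :=
  csInf_le (bddBelow_linearSeriesDegrees hK r) (mem_linearSeriesDegrees f hf m hm hle)

lemma nonempty_linearSeriesDegrees (hK : IsCurveField k K) (r : ℕ) :
    (linearSeriesDegrees k K r).Nonempty := by
  obtain ⟨P, -⟩ := (infinite_place hK).nonempty
  obtain ⟨π, hπ0, hπ⟩ := P.exists_ord_eq_one
  have h1 : LinearIndependent k (fun j : Fin (r + 1) => π ^ (j : ℕ)) := by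
    apply P.linearIndependent_of_strictMono
    · intro i; exact pow_ne_zero _ hπ0
    · intro i j hij
      show P.ord (π ^ (i : ℕ)) < P.ord (π ^ (j : ℕ))
      rw [P.ord_pow π hπ0, P.ord_pow π hπ0, hπ, mul_one, mul_one]
      exact_mod_cast hij
  exact ⟨_, mem_linearSeriesDegrees _ h1 _ (hasFiniteSupport_minOrd hK _)
    (fun P j => P.minOrd_le _ j)⟩

/-- The gonality sequence in terms of families of functions. -/
theorem exists_gon (hK : IsCurveField k K) (r : ℕ) :
    ∃ h : Fin (r + 1) → K, LinearIndependent k h ∧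
      gon k K r = - ∑ᶠ P : Place k K, P.minOrd h := by
  obtain ⟨L, V, hV, hr, hL⟩ := Int.csInf_mem (nonempty_linearSeriesDegrees hK r)
    (bddBelow_linearSeriesDegrees hK r)
  have hfin : Module.Finite k V := Module.finite_of_finrank_pos (by omega)
  let b := Module.finBasisOfFinrankEq k V hr
  let h : Fin (r + 1) → K := fun j => ev1 k K (b j)
  have hind : LinearIndependent k h := by
    have h1 : LinearIndependent k (fun j => (b j : Fin 1 → K)) :=
      b.linearIndependent.map' V.subtype (Submodule.ker_subtype V)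
    exact h1.map' (ev1 k K).toLinearMap (LinearEquiv.ker _)
  have hle : ∀ P : Place k K, P.ord (L.g P).det ≤ P.minOrd h := by
    intro P
    apply P.le_minOrd
    intro j
    exact L.ord_le_of_mem P (b j) (hV _ (b j).2 P) (hind.ne_zero j)
  refine ⟨h, hind, le_antisymm ?_ ?_⟩
  · exact gon_le hK h hind _ (hasFiniteSupport_minOrd hK h) (fun P j => P.minOrd_le h j)
  · have h1 := finsum_le_finsum' L.hasFiniteSupport (hasFiniteSupport_minOrd hK h) hle
    have h2 : gon k K r = L.deg := hL.symm
    rw [h2]
    unfold Bundle.deg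
    omega

theorem gon_le_minOrd (hK : IsCurveField k K) {r : ℕ} (h : Fin (r + 1) → K)
    (hh : LinearIndependent k h) : gon k K r ≤ - ∑ᶠ P : Place k K, P.minOrd h :=
  gon_le hK h hh _ (hasFiniteSupport_minOrd hK h) (fun P j => P.minOrd_le h j)

/-- The number of poles. -/
lemma finsum_min_zero (hK : IsCurveField k K) {f : K} (hf : Transcendental k f) :
    ∑ᶠ P : Place k K, min 0 (P.ord f) < 0 := by
  have hfi : Transcendental k f⁻¹ := by
    intro h; exact hf (by simpa using h.inv)
  have h2 := (zeroSum hK hfi).2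
  have hfd := hK.finiteDimensional hfi
  have h4 : 0 < Module.finrank (IntermediateField.adjoin k {f⁻¹}) K := Module.finrank_pos
  have h5 : ∀ P : Place k K, min 0 (P.ord f) =
      - (Set.indicator {P : Place k K | 0 < P.ord f⁻¹} (fun P => P.ord f⁻¹) P) := by
    intro P
    by_cases h : 0 < P.ord f⁻¹
    · rw [Set.indicator_of_mem (s := {P : Place k K | 0 < P.ord f⁻¹}) h]
      rw [P.ord_inv] at h ⊢
      rw [min_eq_right (by omega)]; ring
    · rw [Set.indicator_of_notMem (s := {P : Place k K | 0 < P.ord f⁻¹}) h]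
      rw [P.ord_inv] at h
      rw [min_eq_left (by omega)]; ring
  rw [finsum_congr h5, finsum_neg_distrib, ← finsum_mem_def, h2]
  omega

lemma hasFiniteSupport_min (hK : IsCurveField k K) (f : K) :
    HasFiniteSupport (fun P : Place k K => min 0 (P.ord f)) := by
  refine (hasFiniteSupport_ord hK f).subset ?_
  intro P hP h
  apply hP
  have h' : P.ord f = 0 := h
  show min 0 (P.ord f) = 0
  rw [h', min_self]

/-- The quotient of two independent functions. -/
lemma finsum_minOrd_two (hK : IsCurveField k K) (h : Fin 2 → K) (hh : LinearIndependent k h) :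
    Transcendental k (h 1 / h 0) ∧
      ∑ᶠ P : Place k K, P.minOrd h = ∑ᶠ P : Place k K, min 0 (P.ord (h 1 / h 0)) := by
  have h0 := hh.ne_zero 0
  have h1 := hh.ne_zero 1
  constructor
  · by_contra hcon
    obtain ⟨c, hc⟩ := exists_algebraMap_eq hcon
    have h2 : c • h 0 = h 1 := by
      rw [Algebra.smul_def, hc, div_mul_cancel₀ _ h0]
    rw [Fintype.linearIndependent_iff] at hh
    have h3 := hh ![c, -1] (by
      rw [Fin.sum_univ_two]
      simp only [cons_val_zero, cons_val_one]
      rw [h2, neg_one_smul, add_neg_cancel]) 1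
    simp at h3
  · have h2 : ∀ P : Place k K, P.minOrd h = min 0 (P.ord (h 1 / h 0)) + P.ord (h 0) := by
      intro P
      rw [P.ord_div _ _ h1 h0]
      have h3 := P.minOrd_le h 0
      have h4 := P.minOrd_le h 1
      obtain ⟨j, hj⟩ := P.exists_minOrd h
      revert hj
      refine Fin.cases ?_ ?_ j
      · intro hj
        rw [hj] at h4 ⊢
        rw [min_eq_left (by omega)]; ring
      · intro i hj
        have hi : i.succ = 1 := by rw [Subsingleton.elim i 0]; rfl
        rw [hi] at hj
        rw [hj] at h3 ⊢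
        rw [min_eq_right (by omega)]; ring
    rw [finsum_congr h2, finsum_add_distrib (hasFiniteSupport_min hK _)
      (hasFiniteSupport_ord hK _), finsum_ord hK, add_zero]

theorem one_le_gon_one (hK : IsCurveField k K) : 1 ≤ gon k K 1 := by
  obtain ⟨h, hh, hg⟩ := exists_gon hK (k := k) 1
  obtain ⟨h1, h2⟩ := finsum_minOrd_two hK h hh
  have h3 := finsum_min_zero hK h1
  rw [hg, h2]
  omega

theorem gon_le_mul_gon_one (hK : IsCurveField k K) (n : ℕ) : gon k K n ≤ n * gon k K 1 := by
  obtain ⟨h, hh, hg⟩ := exists_gon hK (k := k) 1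
  obtain ⟨h1, h2⟩ := finsum_minOrd_two hK h hh
  set f := h 1 / h 0 with hf
  have hf0 : f ≠ 0 := by
    intro h; rw [h] at h1; exact h1 isAlgebraic_zero
  have hP : ∃ P : Place k K, 0 < P.ord f := by
    by_contra hcon
    push Not at hcon
    have h3 : {P : Place k K | 0 < P.ord f} = ∅ := by
      ext P; simpa using hcon P
    have h4 := (zeroSum hK h1).2
    rw [h3, finsum_mem_empty] at h4
    have hfd := hK.finiteDimensional h1
    have h5 : 0 < Module.finrank (IntermediateField.adjoin k {f}) K := Module.finrank_pos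
    omega
  obtain ⟨Q, hQ⟩ := hP
  have h3 : LinearIndependent k (fun j : Fin (n + 1) => f ^ (j : ℕ)) := by
    apply Q.linearIndependent_of_strictMono
    · intro i; exact pow_ne_zero _ hf0
    · intro i j hij
      show Q.ord (f ^ (i : ℕ)) < Q.ord (f ^ (j : ℕ))
      rw [Q.ord_pow f hf0, Q.ord_pow f hf0]
      have : (i : ℤ) < (j : ℤ) := by exact_mod_cast hij
      exact mul_lt_mul_of_pos_right this hQ
  have h4 : HasFiniteSupport (fun P : Place k K => n * min 0 (P.ord f)) := by
    refine (hasFiniteSupport_min hK f).subset ?_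
    intro P hP h
    apply hP
    have h' : min 0 (P.ord f) = 0 := h
    show (n : ℤ) * min 0 (P.ord f) = 0
    rw [h', mul_zero]
  have h5 := gon_le hK _ h3 (fun P => n * min 0 (P.ord f)) h4 (by
    intro P j
    show (n : ℤ) * min 0 (P.ord f) ≤ P.ord (f ^ (j : ℕ))
    rw [P.ord_pow f hf0]
    have hj : (j : ℤ) ≤ n := by
      have := j.2; omega
    have hj0 : (0 : ℤ) ≤ j := by positivity
    rcases le_total 0 (P.ord f) with h | h
    · rw [min_eq_left h, mul_zero]; positivity
    · rw [min_eq_right h]
      exact mul_le_mul_of_nonpos_right hj h)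
  have h6 : ∑ᶠ P : Place k K, (n : ℤ) * min 0 (P.ord f) =
      n * ∑ᶠ P : Place k K, min 0 (P.ord f) := (mul_finsum _ _).symm
  rw [h6] at h5
  rw [hg, h2]
  linarith

omit [CharZero k] in
/-- Independent functions with increasing orders at a place, in a given space. -/
lemma exists_strictMono_family (hK : IsCurveField k K) (P : Place k K) {r : ℕ}
    (h : Fin (r + 1) → K) (hh : LinearIndependent k h) :
    ∃ h' : Fin (r + 1) → K, (∀ i, h' i ∈ Submodule.span k (Set.range h) ∧ h' i ≠ 0) ∧
      StrictMono (fun i => P.ord (h' i)) := by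
  have hfin : Module.Finite k (Submodule.span k (Set.range h)) :=
    FiniteDimensional.span_of_finite k (Set.finite_range h)
  apply exists_strictMono hK P (r + 1) _ hfin
  rw [finrank_span_eq_card hh, Fintype.card_fin]

theorem gon_one_le (hK : IsCurveField k K) (r : ℕ) :
    gon k K 1 + r ≤ gon k K (r + 1) := by
  classical
  obtain ⟨h, hh, hg⟩ := exists_gon hK (k := k) (r + 1)
  obtain ⟨P, -⟩ := (infinite_place hK).nonempty
  obtain ⟨h', hm, hs⟩ := exists_strictMono_family hK P h hh
  have hmono : ∀ i : Fin (r + 1 + 1), P.minOrd h + i ≤ P.ord (h' i) := by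
    intro i
    induction i using Fin.induction with
    | zero =>
      have := P.minOrd_le_of_mem_span h (hm 0).1 (hm 0).2
      simpa using this
    | succ i ih =>
      have h1 : P.ord (h' i.castSucc) < P.ord (h' i.succ) := hs (Fin.castSucc_lt_succ)
      rw [Fin.val_castSucc] at ih
      rw [Fin.val_succ]
      push_cast
      omega
  let a : Fin (r + 1 + 1) := (Fin.last r).castSucc
  let b : Fin (r + 1 + 1) := Fin.last (r + 1)
  have ha : (a : ℤ) = r := by simp [a]
  have hb : (b : ℤ) = r + 1 := by simp [b]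
  have hab : a < b := Fin.castSucc_lt_last _
  let q : Fin 2 → K := ![h' a, h' b]
  have hq : LinearIndependent k q := by
    apply P.linearIndependent_of_strictMono
    · intro i
      fin_cases i
      · exact (hm a).2
      · exact (hm b).2
    · rw [Fin.strictMono_iff_lt_succ]
      intro i
      rw [Subsingleton.elim i 0]
      exact hs hab
  have hsupp : HasFiniteSupport (fun Q : Place k K => if Q = P then (r : ℤ) else 0) := by
    refine (Set.finite_singleton P).subset ?_
    intro Q hQ
    by_contra hne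
    apply hQ
    exact if_neg hne
  have hsum : ∑ᶠ Q : Place k K, (if Q = P then (r : ℤ) else 0) = r := by
    rw [finsum_eq_single _ P]
    · exact if_pos rfl
    · intro Q hQ; exact if_neg hQ
  have key := gon_le hK q hq (fun Q => Q.minOrd h + if Q = P then (r : ℤ) else 0)
    ((hasFiniteSupport_minOrd hK h).fun_add hsupp) (by
    intro Q j
    have hj : q j = h' a ∨ q j = h' b := by
      fin_cases j
      · left; rfl
      · right; rfl
    by_cases hQ : Q = P
    · subst hQ
      rw [if_pos rfl]
      have h1 := hmono a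
      have h2 := hmono b
      rcases hj with hj | hj
      · rw [hj]; omega
      · rw [hj]; omega
    · rw [if_neg hQ, add_zero]
      rcases hj with hj | hj
      · rw [hj]; exact Q.minOrd_le_of_mem_span h (hm a).1 (hm a).2
      · rw [hj]; exact Q.minOrd_le_of_mem_span h (hm b).1 (hm b).2)
  rw [finsum_add_distrib (hasFiniteSupport_minOrd hK h) hsupp, hsum] at key
  rw [hg]
  linarith

theorem le_gon (hK : IsCurveField k K) (r : ℕ) (hr : 1 ≤ r) : (r : ℤ) ≤ gon k K r := by
  obtain ⟨s, rfl⟩ : ∃ s, r = s + 1 := ⟨r - 1, by omega⟩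
  have h1 := gon_one_le hK (k := k) s
  have h2 := one_le_gon_one hK (k := k)
  push_cast
  omega

theorem gon_two_mul_le (hK : IsCurveField k K) (r : ℕ) : gon k K (2 * r) ≤ 2 * gon k K r := by
  obtain ⟨h, hh, hg⟩ := exists_gon hK (k := k) r
  obtain ⟨P, -⟩ := (infinite_place hK).nonempty
  obtain ⟨h', hm, hs⟩ := exists_strictMono_family hK P h hh
  let a : Fin (2 * r + 1) → Fin (r + 1) := fun j => ⟨j / 2, by have := j.2; omega⟩
  let b : Fin (2 * r + 1) → Fin (r + 1) := fun j => ⟨(j + 1) / 2, by have := j.2; omega⟩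
  let q : Fin (2 * r + 1) → K := fun j => h' (a j) * h' (b j)
  have hq : LinearIndependent k q := by
    apply P.linearIndependent_of_strictMono
    · intro i
      exact mul_ne_zero (hm _).2 (hm _).2
    · rw [Fin.strictMono_iff_lt_succ]
      intro i
      show P.ord (h' (a i.castSucc) * h' (b i.castSucc)) < P.ord (h' (a i.succ) * h' (b i.succ))
      rw [P.ord_mul _ _ (hm _).2 (hm _).2, P.ord_mul _ _ (hm _).2 (hm _).2]
      have h1 : a i.succ = b i.castSucc := by
        apply Fin.ext; simp [a, b]
      have h2 : a i.castSucc < b i.succ := by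
        rw [Fin.lt_def]
        simp only [a, b, Fin.val_castSucc, Fin.val_succ]
        omega
      have h3 : P.ord (h' (a i.castSucc)) < P.ord (h' (b i.succ)) := hs h2
      rw [h1]
      omega
  have h4 : HasFiniteSupport (fun P : Place k K => 2 * P.minOrd h) := by
    refine (hasFiniteSupport_minOrd hK h).subset ?_
    intro P hP h9
    apply hP
    have h' : P.minOrd h = 0 := h9
    show 2 * P.minOrd h = 0
    rw [h', mul_zero]
  have key := gon_le hK q hq (fun Q => 2 * Q.minOrd h) h4 (by
    intro Q j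
    show 2 * Q.minOrd h ≤ Q.ord (h' (a j) * h' (b j))
    rw [Q.ord_mul _ _ (hm _).2 (hm _).2]
    have h1 := Q.minOrd_le_of_mem_span h (hm (a j)).1 (hm (a j)).2
    have h2 := Q.minOrd_le_of_mem_span h (hm (b j)).1 (hm (b j)).2
    omega)
  have h6 : ∑ᶠ P : Place k K, 2 * P.minOrd h =
      2 * ∑ᶠ P : Place k K, P.minOrd h := (mul_finsum _ _).symm
  rw [h6] at key
  rw [hg]
  linarith

end

end Pool.Agent.MP_09eaec
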