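import Pool.Agent.Lib.MP_09eaec_ag.Gonality

/-!
# Degrees of subsheaves
-/

set_option autoImplicit false

namespace Pool.Agent.MP_09eaec

open Function Matrix

universe u v

variable {k : Type u} {K : Type v} [Field k] [Field K] [Algebra k K]

namespace Place

variable (P : Place k K)

lemma isInt_det {m : Type*} [Fintype m] [DecidableEq m] (M : Matrix m m K)
    (h : ∀ i j, P.IsInt (M i j)) : P.IsInt M.det := by
  rw [det_apply']
  apply P.isInt_sum
  intro σ _
  apply P.isInt_mul
  · exact intCast_mem P.valuationSubring.toSubring _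
  · apply P.isInt_prod
    intro i _
    exact h _ _

lemma isInt_adjugate {m : Type*} [Fintype m] [DecidableEq m] (M : Matrix m m K)
    (h : ∀ i j, P.IsInt (M i j)) (i j : m) : P.IsInt (M.adjugate i j) := by
  rw [adjugate_apply]
  apply P.isInt_det
  intro a b
  rw [updateRow_apply]
  split_ifs
  · rw [Pi.single_apply]
    split_ifs
    · exact P.isInt_one
    · exact P.isInt_zero
  · exact h a b

end Place

namespace Bundle

variable {n : ℕ} (E : Bundle k K n) (P : Place k K)

lemma isUnit_det : IsUnit (E.g P).det := isUnit_iff_ne_zero.2 (E.det_ne_zero P)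

lemma mem_zero : E.Mem P 0 := by
  intro i
  rw [mulVec_zero]
  exact P.isInt_zero

lemma mem_add {x y : Fin n → K} (hx : E.Mem P x) (hy : E.Mem P y) : E.Mem P (x + y) := by
  intro i
  rw [mulVec_add]
  exact P.isInt_add (hx i) (hy i)

lemma mem_smul {x : Fin n → K} (hx : E.Mem P x) {c : K} (hc : P.IsInt c) : E.Mem P (c • x) := by
  intro i
  rw [mulVec_smul]
  exact P.isInt_mul hc (hx i)

lemma mem_sum {ι : Type*} (s : Finset ι) (f : ι → Fin n → K) (h : ∀ i ∈ s, E.Mem P (f i)) :
    E.Mem P (∑ i ∈ s, f i) := by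
  classical
  induction s using Finset.induction_on with
  | empty => simpa using E.mem_zero P
  | insert a s ha ih =>
    rw [Finset.sum_insert ha]
    exact E.mem_add P (h a (Finset.mem_insert_self _ _))
      (ih fun i hi => h i (Finset.mem_insert_of_mem hi))

lemma mem_mulVec {z : Fin n → K} (hz : ∀ i, P.IsInt (z i)) : E.Mem P (E.g P *ᵥ z) := by
  intro i
  rw [mulVec_mulVec, nonsing_inv_mul _ (E.isUnit_det P), one_mulVec]
  exact hz i

lemma mem_col (a : Fin n) : E.Mem P ((E.g P).col a) := by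
  have h : (E.g P).col a = E.g P *ᵥ Pi.single a 1 := by
    rw [mulVec_single_one]
  rw [h]
  apply E.mem_mulVec P
  intro i
  rw [Pi.single_apply]
  split_ifs
  · exact P.isInt_one
  · exact P.isInt_zero

/-- The determinant of a matrix whose rows are in the lattice. -/
lemma ord_det_le_of_rows (C : Matrix (Fin n) (Fin n) K) (hC : ∀ i, E.Mem P (C i))
    (h0 : C.det ≠ 0) : P.ord (E.g P).det ≤ P.ord C.det := by
  have h1 : P.IsInt (C * ((E.g P)⁻¹)ᵀ).det := by
    apply P.isInt_det
    intro i l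
    have h2 : (C * ((E.g P)⁻¹)ᵀ) i l = ((E.g P)⁻¹ *ᵥ (C i)) l := by
      rw [mul_apply, mulVec, dotProduct]
      apply Finset.sum_congr rfl
      intro q _
      rw [transpose_apply, mul_comm]
    rw [h2]
    exact hC i l
  rw [det_mul, det_transpose, det_nonsing_inv, Ring.inverse_eq_inv',
    P.isInt_iff (mul_ne_zero h0 (inv_ne_zero (E.det_ne_zero P))),
    P.ord_mul _ _ h0 (inv_ne_zero (E.det_ne_zero P)), P.ord_inv] at h1
  omega

end Bundle

/-- Local comparison of a subsheaf with the sheaf. -/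
theorem ord_det_le {n m t : ℕ} (E : Bundle k K n) (F : Bundle k K m) (P : Place k K)
    (j : (Fin m → K) →ₗ[K] (Fin n → K)) (hj : ∀ x, F.Mem P x → E.Mem P (j x))
    (e : Fin m ⊕ Fin t ≃ Fin n) (G : Fin n → (Fin n → K))
    (hG1 : ∀ a, G (e (Sum.inl a)) = j (Pi.single a 1))
    (hG2 : ∀ b, E.Mem P (G (e (Sum.inr b))))
    (hdet : (Matrix.of G).det ≠ 0) :
    P.ord (E.g P).det ≤ P.ord (F.g P).det + P.ord (Matrix.of G).det := by
  let B : Matrix (Fin m ⊕ Fin t) (Fin m ⊕ Fin t) K := fromBlocks (F.g P)ᵀ 0 0 1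
  let B' : Matrix (Fin n) (Fin n) K := B.submatrix e.symm e.symm
  have hB : B'.det = (F.g P).det := by
    rw [det_submatrix_equiv_self, det_fromBlocks_zero₂₁, det_transpose, det_one, mul_one]
  have hrow : ∀ i, (B' * Matrix.of G) i = ∑ l, B' i l • G l := by
    intro i
    ext q
    rw [mul_apply, Finset.sum_apply]
    rfl
  have hmem : ∀ i, E.Mem P ((B' * Matrix.of G) i) := by
    intro i
    rw [hrow, ← e.sum_comp, Fintype.sum_sum_type]
    rcases h : e.symm i with a | b
    · have h1 : ∀ l, B' i (e (Sum.inl l)) = F.g P l a := by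
        intro l
        simp [B', B, h]
      have h2 : ∀ l, B' i (e (Sum.inr l)) = 0 := by
        intro l
        simp [B', B, h]
      simp only [h1, h2, hG1, zero_smul, Finset.sum_const_zero, add_zero]
      have h3 : ∑ l, F.g P l a • j (Pi.single l 1) = j ((F.g P).col a) := by
        have h5 : (F.g P).col a = ∑ l, F.g P l a • (Pi.single l 1 : Fin m → K) := by
          ext q
          simp [Finset.sum_apply, Pi.single_apply]
        rw [h5, map_sum]
        simp only [map_smul]
      rw [h3]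
      exact hj _ (F.mem_col P a)
    · have h1 : ∀ l, B' i (e (Sum.inl l)) = 0 := by
        intro l
        simp [B', B, h]
      have h2 : ∀ l, B' i (e (Sum.inr l)) = if b = l then 1 else 0 := by
        intro l
        simp [B', B, h, one_apply]
      simp only [h1, h2, zero_smul, Finset.sum_const_zero, zero_add, ite_smul, one_smul,
        Finset.sum_ite_eq, Finset.mem_univ, if_true]
      exact hG2 b
  have h4 := E.ord_det_le_of_rows P (B' * Matrix.of G) hmem (by
    rw [det_mul, hB]; exact mul_ne_zero (F.det_ne_zero P) hdet)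
  rw [det_mul, hB, P.ord_mul _ _ (F.det_ne_zero P) hdet] at h4
  exact h4

/-- **Degree bound for subsheaves.** -/
theorem deg_le_deg_add {n m t : ℕ} (E : Bundle k K n) (F : Bundle k K m)
    (j : (Fin m → K) →ₗ[K] (Fin n → K)) (hj : ∀ P x, F.Mem P x → E.Mem P (j x))
    (e : Fin m ⊕ Fin t ≃ Fin n) (G : Place k K → Fin n → (Fin n → K))
    (hG1 : ∀ P a, G P (e (Sum.inl a)) = j (Pi.single a 1))
    (hG2 : ∀ P b, E.Mem P (G P (e (Sum.inr b))))
    (hdet : ∀ P, (Matrix.of (G P)).det ≠ 0)
    (hfin : HasFiniteSupport fun P : Place k K => P.ord (Matrix.of (G P)).det) :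
    F.deg ≤ E.deg + ∑ᶠ P : Place k K, P.ord (Matrix.of (G P)).det := by
  have h1 := finsum_le_finsum' E.hasFiniteSupport (F.hasFiniteSupport.fun_add hfin)
    (fun P => ord_det_le E F P j (hj P) e (G P) (hG1 P) (hG2 P) (hdet P))
  rw [finsum_add_distrib F.hasFiniteSupport hfin] at h1
  unfold Bundle.deg
  omega

lemma eq_of_finsum_eq {ι : Type*} (f g : ι → ℤ) (hf : HasFiniteSupport f)
    (hg : HasFiniteSupport g) (hle : ∀ i, f i ≤ g i) (h : ∑ᶠ i, g i ≤ ∑ᶠ i, f i) (i : ι) :
    f i = g i := by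
  by_contra hne
  have h1 : 0 < ∑ᶠ i, (g i - f i) := by
    apply finsum_pos
    · intro i; have := hle i; omega
    · exact ⟨i, by have := hle i; omega⟩
    · exact hg.fun_sub hf
  rw [finsum_sub_distrib hg hf] at h1
  omega

section

variable [IsAlgClosed k] [CharZero k]

lemma det_toMatrix_ne_zero {n : ℕ} (j : (Fin n → K) →ₗ[K] (Fin n → K)) (hj : Injective j) :
    (LinearMap.toMatrix' j).det ≠ 0 := by
  have h1 : Injective (LinearMap.toMatrix' j).mulVec := by
    intro x y hxy
    apply hj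
    have : LinearMap.toMatrix' j *ᵥ x = LinearMap.toMatrix' j *ᵥ y := hxy
    rwa [LinearMap.toMatrix'_mulVec, LinearMap.toMatrix'_mulVec] at this
  rw [mulVec_injective_iff_isUnit, isUnit_iff_isUnit_det] at h1
  exact h1.ne_zero

omit [IsAlgClosed k] [CharZero k] in
/-- Comparison of a subsheaf of full rank with the sheaf, at a point. -/
lemma ord_det_le_full {n : ℕ} (E F : Bundle k K n) (P : Place k K)
    (j : (Fin n → K) →ₗ[K] (Fin n → K)) (hj : Injective j)
    (hm : ∀ x, F.Mem P x → E.Mem P (j x)) :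
    P.ord (E.g P).det ≤ P.ord (F.g P).det + P.ord (LinearMap.toMatrix' j).det := by
  have hJ : Matrix.of (fun i => j (Pi.single i 1)) = (LinearMap.toMatrix' j)ᵀ := by
    ext a b
    rw [transpose_apply, LinearMap.toMatrix'_apply]
    rfl
  have h := ord_det_le (t := 0) E F P j hm (Equiv.sumEmpty (Fin n) (Fin 0))
    (fun i => j (Pi.single i 1)) (fun a => rfl) (fun b => b.elim0) (by
      rw [hJ, det_transpose]; exact det_toMatrix_ne_zero j hj)
  rwa [hJ, det_transpose] at h

theorem deg_le_deg_full (hK : IsCurveField k K) {n : ℕ} (E F : Bundle k K n)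
    (j : (Fin n → K) →ₗ[K] (Fin n → K)) (hj : Injective j)
    (hm : ∀ P x, F.Mem P x → E.Mem P (j x)) : F.deg ≤ E.deg := by
  have h1 := finsum_le_finsum' E.hasFiniteSupport
    (F.hasFiniteSupport.fun_add (hasFiniteSupport_ord hK (LinearMap.toMatrix' j).det))
    (fun P => ord_det_le_full E F P j hj (hm P))
  rw [finsum_add_distrib F.hasFiniteSupport (hasFiniteSupport_ord hK _), finsum_ord hK] at h1
  unfold Bundle.deg
  omega

theorem whole_of_deg_le (hK : IsCurveField k K) {n : ℕ} (E F : Bundle k K n)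
    (j : (Fin n → K) →ₗ[K] (Fin n → K)) (hj : Injective j)
    (hm : ∀ P x, F.Mem P x → E.Mem P (j x)) (hdeg : E.deg ≤ F.deg) (P : Place k K)
    (y : Fin n → K) (hy : E.Mem P y) : ∃ x, F.Mem P x ∧ j x = y := by
  have hfs := F.hasFiniteSupport.fun_add (hasFiniteSupport_ord hK (LinearMap.toMatrix' j).det)
  have h1 := eq_of_finsum_eq _ _ E.hasFiniteSupport hfs
    (fun P => ord_det_le_full E F P j hj (hm P)) (by
      rw [finsum_add_distrib F.hasFiniteSupport (hasFiniteSupport_ord hK _), finsum_ord hK]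
      unfold Bundle.deg at hdeg
      omega) P
  have h1' : P.ord (E.g P).det = P.ord (F.g P).det + P.ord (LinearMap.toMatrix' j).det := h1
  set J := LinearMap.toMatrix' j with hJ
  have hJdet : J.det ≠ 0 := det_toMatrix_ne_zero j hj
  have hEd := E.det_ne_zero P
  have hFd := F.det_ne_zero P
  set N : Matrix (Fin n) (Fin n) K := (E.g P)⁻¹ * (J * F.g P) with hN
  have hNint : ∀ a b, P.IsInt (N a b) := by
    intro a b
    have h2 : E.Mem P (j ((F.g P).col b)) := hm P _ (F.mem_col P b)
    have h3 := h2 a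
    have h4 : N a b = ((E.g P)⁻¹ *ᵥ (j ((F.g P).col b))) a := by
      rw [hN, ← LinearMap.toMatrix'_mulVec, ← hJ, ← mulVec_single_one, mulVec_mulVec, mulVec_mulVec,
        mulVec_single_one, mul_assoc]
      rfl
    rw [h4]; exact h3
  have hNdet : N.det ≠ 0 := by
    rw [hN, det_mul, det_mul, det_nonsing_inv, Ring.inverse_eq_inv']
    exact mul_ne_zero (inv_ne_zero hEd) (mul_ne_zero hJdet hFd)
  have hNord : P.ord N.det = 0 := by
    rw [hN, det_mul, det_mul, det_nonsing_inv, Ring.inverse_eq_inv',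
      P.ord_mul _ _ (inv_ne_zero hEd) (mul_ne_zero hJdet hFd), P.ord_mul _ _ hJdet hFd, P.ord_inv]
    omega
  have hNinv : ∀ a b, P.IsInt (N⁻¹ a b) := by
    intro a b
    rw [inv_def, Ring.inverse_eq_inv', Matrix.smul_apply, smul_eq_mul]
    apply P.isInt_mul
    · right; rw [P.ord_inv, hNord, neg_zero]
    · exact P.isInt_adjugate N hNint a b
  have huJ : IsUnit J.det := isUnit_iff_ne_zero.2 hJdet
  have huE : IsUnit (E.g P).det := E.isUnit_det P
  have huF : IsUnit (F.g P).det := F.isUnit_det P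
  have huN : IsUnit N.det := isUnit_iff_ne_zero.2 hNdet
  have hinv : (F.g P)⁻¹ * J⁻¹ = N⁻¹ * (E.g P)⁻¹ := by
    have h5 : N * ((F.g P)⁻¹ * J⁻¹) = (E.g P)⁻¹ := by
      rw [hN, mul_assoc, mul_assoc, ← mul_assoc (F.g P), mul_nonsing_inv _ huF, one_mul,
        mul_nonsing_inv _ huJ, mul_one]
    rw [← h5, ← mul_assoc, nonsing_inv_mul _ huN, one_mul]
  refine ⟨J⁻¹ *ᵥ y, ?_, ?_⟩
  · intro i
    rw [mulVec_mulVec, hinv, ← mulVec_mulVec, mulVec, dotProduct]
    apply P.isInt_sum
    intro l _
    exact P.isInt_mul (hNinv i l) (hy l)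
  · rw [← LinearMap.toMatrix'_mulVec, ← hJ, mulVec_mulVec, mul_nonsing_inv _ huJ, one_mulVec]

/-- If the lattices agree, the degrees agree. -/
theorem deg_eq_of_whole (hK : IsCurveField k K) {n : ℕ} (E F : Bundle k K n)
    (j : (Fin n → K) →ₗ[K] (Fin n → K)) (hj : Injective j)
    (hm : ∀ P x, F.Mem P x → E.Mem P (j x))
    (hw : ∀ P y, E.Mem P y → ∃ x, F.Mem P x ∧ j x = y) : E.deg = F.deg := by
  apply le_antisymm _ (deg_le_deg_full hK E F j hj hm)
  let jj : (Fin n → K) ≃ₗ[K] (Fin n → K) := LinearEquiv.ofInjectiveEndo j hj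
  have hjj : ∀ x, jj x = j x := fun x => rfl
  apply deg_le_deg_full hK F E jj.symm.toLinearMap jj.symm.injective
  intro P y hy
  obtain ⟨x, hx, rfl⟩ := hw P y hy
  show F.Mem P (jj.symm (j x))
  rw [← hjj, LinearEquiv.symm_apply_apply]
  exact hx

end

end Pool.Agent.MP_09eaec
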