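import Pool.Agent.Lib.MP_09eaec_ag.Residue

/-!
# Vanishing orders of the elements of a finite-dimensional space of functions
-/

set_option autoImplicit false

namespace Pool.Agent.MP_09eaec

open Function

universe u v

variable {k : Type u} {K : Type v} [Field k] [Field K] [Algebra k K]

namespace Place

variable (P : Place k K)

/-- The functions of order at least `m`. -/
def filt (m : ℤ) : Submodule k K where
  carrier := {f | f = 0 ∨ m ≤ P.ord f}
  zero_mem' := Or.inl rfl
  add_mem' := by
    intro a b ha hb
    by_cases ha0 : a = 0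
    · simpa [ha0] using hb
    by_cases hb0 : b = 0
    · simpa [hb0] using ha
    by_cases hab : a + b = 0
    · left; exact hab
    right
    exact le_trans (le_min (ha.resolve_left ha0) (hb.resolve_left hb0)) (P.ord_add a b ha0 hb0 hab)
  smul_mem' := by
    intro c b hb
    by_cases hb0 : b = 0
    · left; simp [hb0]
    by_cases hc0 : c = 0
    · left; simp [hc0]
    right
    have hc' : algebraMap k K c ≠ 0 := by
      rw [Ne, map_eq_zero_iff _ (algebraMap k K).injective]; exact hc0
    rw [Algebra.smul_def, P.ord_mul _ _ hc' hb0, P.ord_algebraMap, zero_add]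
    exact hb.resolve_left hb0

lemma mem_filt {m : ℤ} {f : K} : f ∈ P.filt m ↔ f = 0 ∨ m ≤ P.ord f := Iff.rfl

lemma ord_zpow {x : K} (hx : x ≠ 0) (m : ℤ) : P.ord (x ^ m) = m * P.ord x := by
  cases m with
  | ofNat m => simpa using P.ord_pow x hx m
  | negSucc m =>
    rw [zpow_negSucc, P.ord_inv, P.ord_pow x hx]
    push_cast
    rw [Int.negSucc_eq]
    ring

theorem linearIndependent_of_strictMono : ∀ (m : ℕ) (h : Fin m → K), (∀ i, h i ≠ 0) →
    StrictMono (fun i => P.ord (h i)) → LinearIndependent k h := by
  intro m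
  induction m with
  | zero => intro h _ _; exact linearIndependent_empty_type
  | succ m ih =>
    intro h h0 hm
    have h1 : h = Fin.cons (h 0) (Fin.tail h) := (Fin.cons_self_tail h).symm
    rw [h1, linearIndependent_finCons]
    refine ⟨ih _ (fun i => h0 i.succ) ?_, ?_⟩
    · intro i j hij
      exact hm (Fin.succ_lt_succ_iff.2 hij)
    · intro hmem
      have h2 : Submodule.span k (Set.range (Fin.tail h)) ≤ P.filt (P.ord (h 0) + 1) := by
        rw [Submodule.span_le]
        rintro _ ⟨i, rfl⟩
        right
        have h4 : P.ord (h 0) < P.ord (h i.succ) := hm (Fin.succ_pos i)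
        show P.ord (h 0) + 1 ≤ P.ord (h i.succ)
        omega
      have h3 := h2 hmem
      rcases h3 with h3 | h3
      · exact h0 0 h3
      · omega

/-- The minimal order of the members of a family. -/
noncomputable def minOrd {r : ℕ} (h : Fin (r + 1) → K) : ℤ :=
  Finset.univ.inf' Finset.univ_nonempty (fun j => P.ord (h j))

lemma minOrd_le {r : ℕ} (h : Fin (r + 1) → K) (j : Fin (r + 1)) : P.minOrd h ≤ P.ord (h j) :=
  Finset.inf'_le _ (Finset.mem_univ j)

lemma exists_minOrd {r : ℕ} (h : Fin (r + 1) → K) : ∃ j, P.minOrd h = P.ord (h j) := by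
  obtain ⟨j, _, hj⟩ := Finset.exists_mem_eq_inf' (Finset.univ_nonempty (α := Fin (r + 1)))
    (fun j => P.ord (h j))
  exact ⟨j, hj⟩

lemma le_minOrd {r : ℕ} (h : Fin (r + 1) → K) (m : ℤ) (hm : ∀ j, m ≤ P.ord (h j)) :
    m ≤ P.minOrd h := by
  obtain ⟨j, hj⟩ := P.exists_minOrd h
  rw [hj]; exact hm j

lemma minOrd_le_of_mem_span {r : ℕ} (h : Fin (r + 1) → K) {f : K}
    (hf : f ∈ Submodule.span k (Set.range h)) (hf0 : f ≠ 0) : P.minOrd h ≤ P.ord f := by
  have h2 : Submodule.span k (Set.range h) ≤ P.filt (P.minOrd h) := by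
    rw [Submodule.span_le]
    rintro _ ⟨i, rfl⟩
    exact Or.inr (P.minOrd_le h i)
  exact (h2 hf).resolve_left hf0

end Place

variable [IsAlgClosed k]

/-- A finite-dimensional space of functions contains functions with increasing vanishing orders. -/
theorem exists_strictMono (hK : IsCurveField k K) (P : Place k K) :
    ∀ (m : ℕ) (U : Submodule k K), Module.Finite k U → m ≤ Module.finrank k U →
    ∃ h : Fin m → K, (∀ i, h i ∈ U ∧ h i ≠ 0) ∧ StrictMono (fun i => P.ord (h i)) := by
  intro m
  induction m with
  | zero =>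
    intro U _ _
    exact ⟨Fin.elim0, fun i => i.elim0, fun i => i.elim0⟩
  | succ m ih =>
    intro U hU hm
    obtain ⟨r, hr⟩ : ∃ r, Module.finrank k U = r + 1 := ⟨Module.finrank k U - 1, by omega⟩
    let b := Module.finBasisOfFinrankEq k U hr
    let bb : Fin (r + 1) → K := fun i => (b i : K)
    have hb0 : ∀ i, bb i ≠ 0 := fun i h => b.ne_zero i (Subtype.ext h)
    have hspan : U ≤ Submodule.span k (Set.range bb) := by
      intro x hx
      have h1 := b.sum_repr ⟨x, hx⟩
      have h2 := congrArg Subtype.val h1
      rw [AddSubmonoidClass.coe_finsetSum] at h2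
      change _ = x at h2
      rw [← h2]
      apply Submodule.sum_mem
      intro i _
      exact Submodule.smul_mem _ _ (Submodule.subset_span ⟨i, rfl⟩)
    obtain ⟨j, hj⟩ := P.exists_minOrd bb
    have hle : U ≤ Submodule.span k {bb j} ⊔ (U ⊓ P.filt (P.ord (bb j) + 1)) := by
      intro f hf
      by_cases hf0 : f = 0
      · rw [hf0]; exact zero_mem _
      have h1 : P.ord (bb j) ≤ P.ord f := by
        rw [← hj]; exact P.minOrd_le_of_mem_span bb (hspan hf) hf0
      have h2 : P.IsInt (f / bb j) := by
        right; rw [P.ord_div _ _ hf0 (hb0 j)]; omega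
      obtain ⟨c, hc⟩ := exists_residue hK P h2
      have h3 : f - c • bb j = (f / bb j - algebraMap k K c) * bb j := by
        rw [sub_mul, div_mul_cancel₀ _ (hb0 j), Algebra.smul_def]
      have h4 : f - c • bb j ∈ P.filt (P.ord (bb j) + 1) := by
        rw [h3]
        rcases hc with hc | hc
        · left; rw [hc, zero_mul]
        · right
          have h5 : f / bb j - algebraMap k K c ≠ 0 := by
            intro h; rw [h, P.ord_zero] at hc; omega
          rw [P.ord_mul _ _ h5 (hb0 j)]; omega
      have h6 : f = c • bb j + (f - c • bb j) := by ring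
      rw [h6]
      apply Submodule.add_mem_sup
      · exact Submodule.smul_mem _ _ (Submodule.mem_span_singleton_self _)
      · refine ⟨?_, h4⟩
        exact U.sub_mem hf (U.smul_mem _ (b j).2)
    have hfin2 : Module.Finite k (U ⊓ P.filt (P.ord (bb j) + 1) : Submodule k K) :=
      Submodule.finiteDimensional_inf_left _ _
    have hd : Module.finrank k U ≤ 1 +
        Module.finrank k (U ⊓ P.filt (P.ord (bb j) + 1) : Submodule k K) := by
      refine le_trans (Submodule.finrank_mono hle) ?_
      refine le_trans (Submodule.finrank_add_le_finrank_add_finrank _ _) ?_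
      have := finrank_span_singleton (K := k) (hb0 j)
      omega
    obtain ⟨h', h1, h2⟩ := ih (U ⊓ P.filt (P.ord (bb j) + 1)) hfin2 (by omega)
    have hlt : ∀ i, P.ord (bb j) < P.ord (h' i) := by
      intro i
      have h3 := ((h1 i).1.2).resolve_left (h1 i).2
      omega
    refine ⟨Fin.cons (bb j) h', ?_, ?_⟩
    · intro i
      refine Fin.cases ?_ ?_ i
      · exact ⟨(b j).2, hb0 j⟩
      · intro i; exact ⟨(h1 i).1.1, (h1 i).2⟩
    · intro a c hac
      revert hac
      refine Fin.cases ?_ ?_ a
      · refine Fin.cases ?_ ?_ c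
        · intro h; exact absurd h (lt_irrefl _)
        · intro i _; exact hlt i
      · intro a'
        refine Fin.cases ?_ ?_ c
        · intro h; exact absurd h (Fin.not_lt_zero _)
        · intro i h; exact h2 (Fin.succ_lt_succ_iff.1 h)

end Pool.Agent.MP_09eaec
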