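import Mathlib

/-!
# Places of a function field of one variable
-/

set_option autoImplicit false

namespace Pool.Agent.MP_09eaec

universe u v

/-- A place of `K/k`: a normalised (surjective) discrete valuation `ord : K^* → ℤ` of the field `K`
which is trivial on the constants `k` (with the convention `ord 0 = 0`). For the function field `K`
of a smooth projective curve over the algebraically closed field `k`, the places are the points of
the curve. -/
@[ext] structure Place (k : Type u) (K : Type v) [Field k] [Field K] [Algebra k K] where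
  ord : K → ℤ
  ord_zero : ord 0 = 0
  ord_mul : ∀ x y, x ≠ 0 → y ≠ 0 → ord (x * y) = ord x + ord y
  ord_add : ∀ x y, x ≠ 0 → y ≠ 0 → x + y ≠ 0 → min (ord x) (ord y) ≤ ord (x + y)
  ord_algebraMap : ∀ c : k, ord (algebraMap k K c) = 0
  exists_ord_eq_one : ∃ x, x ≠ 0 ∧ ord x = 1

variable {k : Type u} {K : Type v} [Field k] [Field K] [Algebra k K]

namespace Place

variable (P : Place k K)

/-- `x` is regular at the place `P`. -/
def IsInt (x : K) : Prop := x = 0 ∨ 0 ≤ P.ord x

lemma ord_one : P.ord 1 = 0 := by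
  have := P.ord_algebraMap 1
  simpa using this

lemma ord_neg_one : P.ord (-1) = 0 := by
  have := P.ord_algebraMap (-1)
  simpa using this

lemma ord_neg (x : K) : P.ord (-x) = P.ord x := by
  by_cases hx : x = 0
  · simp [hx]
  · have := P.ord_mul (-1) x (by simp) hx
    rw [P.ord_neg_one, zero_add] at this
    rw [← this]; congr 1; ring

lemma ord_inv (x : K) : P.ord x⁻¹ = - P.ord x := by
  by_cases hx : x = 0
  · simp [hx, P.ord_zero]
  · have := P.ord_mul x x⁻¹ hx (inv_ne_zero hx)
    rw [mul_inv_cancel₀ hx, P.ord_one] at this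
    omega

lemma ord_div (x y : K) (hx : x ≠ 0) (hy : y ≠ 0) : P.ord (x / y) = P.ord x - P.ord y := by
  rw [div_eq_mul_inv, P.ord_mul x _ hx (inv_ne_zero hy), P.ord_inv]; ring

lemma ord_prod {ι : Type*} (s : Finset ι) (f : ι → K) (h : ∀ i ∈ s, f i ≠ 0) :
    P.ord (∏ i ∈ s, f i) = ∑ i ∈ s, P.ord (f i) := by
  classical
  induction s using Finset.induction_on with
  | empty => simp [P.ord_one]
  | insert a s ha ih =>
    rw [Finset.prod_insert ha, Finset.sum_insert ha, P.ord_mul, ih]
    · intro i hi; exact h i (Finset.mem_insert_of_mem hi)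
    · exact h a (Finset.mem_insert_self _ _)
    · exact Finset.prod_ne_zero_iff.2 fun i hi => h i (Finset.mem_insert_of_mem hi)

lemma ord_pow (x : K) (hx : x ≠ 0) (n : ℕ) : P.ord (x ^ n) = n * P.ord x := by
  have := P.ord_prod (Finset.range n) (fun _ => x) (fun _ _ => hx)
  simpa using this

lemma isInt_zero : P.IsInt 0 := Or.inl rfl

lemma isInt_one : P.IsInt 1 := Or.inr (by rw [P.ord_one])

lemma isInt_algebraMap (c : k) : P.IsInt (algebraMap k K c) := Or.inr (by rw [P.ord_algebraMap])

lemma isInt_iff {x : K} (hx : x ≠ 0) : P.IsInt x ↔ 0 ≤ P.ord x := by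
  simp [IsInt, hx]

lemma isInt_mul {x y : K} (hx : P.IsInt x) (hy : P.IsInt y) : P.IsInt (x * y) := by
  by_cases hx0 : x = 0
  · simp [hx0, P.isInt_zero]
  by_cases hy0 : y = 0
  · simp [hy0, P.isInt_zero]
  rw [P.isInt_iff hx0] at hx
  rw [P.isInt_iff hy0] at hy
  right; rw [P.ord_mul x y hx0 hy0]; omega

lemma isInt_add {x y : K} (hx : P.IsInt x) (hy : P.IsInt y) : P.IsInt (x + y) := by
  by_cases hx0 : x = 0
  · simpa [hx0] using hy
  by_cases hy0 : y = 0
  · simpa [hy0] using hx
  by_cases hxy : x + y = 0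
  · left; exact hxy
  rw [P.isInt_iff hx0] at hx
  rw [P.isInt_iff hy0] at hy
  right
  have := P.ord_add x y hx0 hy0 hxy
  exact le_trans (le_min hx hy) this

lemma isInt_neg {x : K} (hx : P.IsInt x) : P.IsInt (-x) := by
  rcases hx with h | h
  · left; simp [h]
  · right; rwa [P.ord_neg]

/-- The local ring of the place `P`, as a valuation subring. -/
def valuationSubring : ValuationSubring K where
  carrier := {x | P.IsInt x}
  mul_mem' := fun hx hy => P.isInt_mul hx hy
  one_mem' := P.isInt_one
  add_mem' := fun hx hy => P.isInt_add hx hy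
  zero_mem' := P.isInt_zero
  neg_mem' := fun hx => P.isInt_neg hx
  mem_or_inv_mem' := by
    intro x
    by_cases hx : x = 0
    · left; exact Or.inl hx
    · rcases le_total 0 (P.ord x) with h | h
      · left; exact Or.inr h
      · right; right; rw [P.ord_inv]; omega

lemma mem_valuationSubring {x : K} : x ∈ P.valuationSubring ↔ P.IsInt x := Iff.rfl

lemma isInt_sum {ι : Type*} (s : Finset ι) (f : ι → K) (h : ∀ i ∈ s, P.IsInt (f i)) :
    P.IsInt (∑ i ∈ s, f i) := P.valuationSubring.toSubring.sum_mem h

lemma isInt_prod {ι : Type*} (s : Finset ι) (f : ι → K) (h : ∀ i ∈ s, P.IsInt (f i)) :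
    P.IsInt (∏ i ∈ s, f i) := P.valuationSubring.toSubring.prod_mem h

lemma isInt_of_isIntegral {A : Type*} [CommRing A] [Algebra A K]
    (hA : ∀ a : A, P.IsInt (algebraMap A K a)) {x : K} (hx : IsIntegral A x) : P.IsInt x := by
  obtain ⟨p, hp, hpx⟩ := hx
  let φ : A →+* P.valuationSubring := (algebraMap A K).codRestrict P.valuationSubring.toSubring hA
  have h1 : IsIntegral P.valuationSubring x := by
    refine ⟨p.map φ, hp.map φ, ?_⟩
    rw [Polynomial.eval₂_map]
    have : (algebraMap P.valuationSubring K).comp φ = algebraMap A K := by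
      ext a; rfl
    rw [this]; exact hpx
  obtain ⟨y, hy⟩ := IsIntegrallyClosed.algebraMap_eq_of_integral h1
  rw [← hy]
  exact y.2

end Place

end Pool.Agent.MP_09eaec
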