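import Pool.Agent.Lib.MP_09eaec_ag.Mg.G046

/-!
# The stable coherent systems of degree `⌊n d_r / r⌋ + 1`
-/

set_option autoImplicit false

namespace Pool.Agent.MP_09eaec

open Function Matrix

universe u v

section numerics

variable {r s n M w x κ α d : ℝ}

lemma num_B1 (hs : 1 ≤ s) (hsr : s ≤ r - 1) (hn : n = r + s) (hM : 1 ≤ M)
    (hκ : 0 < κ) (hα : α * (2 * s) = κ * (2 * r - 1)) (hd : d ≤ x * M + κ) (hw : w ≤ M - 1) :
    (d + α * w) * n < (x * n + κ + α * (n + 1)) * M := by
  have hα0 : 0 < α := by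
    by_contra h
    push Not at h
    have h1 : α * (2 * s) ≤ 0 := mul_nonpos_of_nonpos_of_nonneg h (by linarith)
    have h2 : 0 < κ * (2 * r - 1) := mul_pos hκ (by linarith)
    linarith
  have h1 : (2 * s) * (n - M) < (2 * r - 1) * (n + M) := by nlinarith
  have h2 : κ * ((2 * s) * (n - M)) < κ * ((2 * r - 1) * (n + M)) := mul_lt_mul_of_pos_left h1 hκ
  have h3 : (κ * (n - M)) * (2 * s) < (α * (n + M)) * (2 * s) := by
    calc (κ * (n - M)) * (2 * s) = κ * ((2 * s) * (n - M)) := by ring
      _ < κ * ((2 * r - 1) * (n + M)) := h2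
      _ = (κ * (2 * r - 1)) * (n + M) := by ring
      _ = (α * (2 * s)) * (n + M) := by rw [hα]
      _ = (α * (n + M)) * (2 * s) := by ring
  have h4 : κ * (n - M) < α * (n + M) := lt_of_mul_lt_mul_right h3 (by linarith)
  have hn0 : 0 < n := by linarith
  have h5 : d + α * w ≤ x * M + κ + α * (M - 1) := by
    have := mul_le_mul_of_nonneg_left hw hα0.le
    linarith
  have h6 : (d + α * w) * n ≤ (x * M + κ + α * (M - 1)) * n := mul_le_mul_of_nonneg_right h5 hn0.le
  have h7 : (x * n + κ + α * (n + 1)) * M - (x * M + κ + α * (M - 1)) * n =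
      α * (n + M) - κ * (n - M) := by ring
  linarith

lemma num_B2 (hs : 1 ≤ s) (hsr : s ≤ r - 1) (hn : n = r + s) (hM : s + 1 ≤ M)
    (hκ : 0 < κ) (hα : α * (2 * s) = κ * (2 * r - 1)) (hd : d ≤ x * M + κ) (hw : w ≤ M) :
    (d + α * w) * n < (x * n + κ + α * (n + 1)) * M := by
  have hα0 : 0 < α := by
    by_contra h
    push Not at h
    have h1 : α * (2 * s) ≤ 0 := mul_nonpos_of_nonpos_of_nonneg h (by linarith)
    have h2 : 0 < κ * (2 * r - 1) := mul_pos hκ (by linarith)
    linarith
  have h1 : (2 * s) * (n - M) < (2 * r - 1) * M := by nlinarith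
  have h2 : κ * ((2 * s) * (n - M)) < κ * ((2 * r - 1) * M) := mul_lt_mul_of_pos_left h1 hκ
  have h3 : (κ * (n - M)) * (2 * s) < (α * M) * (2 * s) := by
    calc (κ * (n - M)) * (2 * s) = κ * ((2 * s) * (n - M)) := by ring
      _ < κ * ((2 * r - 1) * M) := h2
      _ = (κ * (2 * r - 1)) * M := by ring
      _ = (α * (2 * s)) * M := by rw [hα]
      _ = (α * M) * (2 * s) := by ring
  have h4 : κ * (n - M) < α * M := lt_of_mul_lt_mul_right h3 (by linarith)
  have hn0 : 0 < n := by linarith
  have h5 : d + α * w ≤ x * M + κ + α * M := by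
    have := mul_le_mul_of_nonneg_left hw hα0.le
    linarith
  have h6 : (d + α * w) * n ≤ (x * M + κ + α * M) * n := mul_le_mul_of_nonneg_right h5 hn0.le
  have h7 : (x * n + κ + α * (n + 1)) * M - (x * M + κ + α * M) * n =
      α * M - κ * (n - M) := by ring
  linarith

lemma num_B3 (hs : 1 ≤ s) (hsr : s ≤ r - 1) (hn : n = r + s) (hM : M = s)
    (hκ : 0 < κ) (hκ1 : κ ≤ 1) (hα : α * (2 * s) = κ * (2 * r - 1)) (hd : d ≤ s * x + κ - 1)
    (hw : w ≤ M) :
    (d + α * w) * n < (x * n + κ + α * (n + 1)) * M := by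
  have hα0 : 0 < α := by
    by_contra h
    push Not at h
    have h1 : α * (2 * s) ≤ 0 := mul_nonpos_of_nonpos_of_nonneg h (by linarith)
    have h2 : 0 < κ * (2 * r - 1) := mul_pos hκ (by linarith)
    linarith
  subst hM
  have hn0 : 0 < n := by linarith
  have h5 : d + α * w ≤ M * x + κ - 1 + α * M := by
    have := mul_le_mul_of_nonneg_left hw hα0.le
    linarith
  have h6 : (d + α * w) * n ≤ (M * x + κ - 1 + α * M) * n := mul_le_mul_of_nonneg_right h5 hn0.le
  have h7 : (x * n + κ + α * (n + 1)) * M - (M * x + κ - 1 + α * M) * n =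
      κ * M + α * M + (1 - κ) * n := by ring
  have h8 : 0 < κ * M := mul_pos hκ (by linarith)
  have h9 : 0 < α * M := mul_pos hα0 (by linarith)
  have h10 : 0 ≤ (1 - κ) * n := mul_nonneg (by linarith) hn0.le
  linarith

lemma num_A1 (hs : 1 ≤ s) (hsr : s ≤ r - 1) (hn : n = r + s) (hM : 1 ≤ M)
    (hκ : 0 < κ) (hα : α * (2 * s) = κ * (2 * r - 1)) (hd : d ≤ x * M) (hw : w ≤ M) :
    (d + α * w) * n < (x * n + κ + α * (n + 1)) * M := by
  have hα0 : 0 < α := by
    by_contra h
    push Not at h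
    have h1 : α * (2 * s) ≤ 0 := mul_nonpos_of_nonpos_of_nonneg h (by linarith)
    have h2 : 0 < κ * (2 * r - 1) := mul_pos hκ (by linarith)
    linarith
  have hn0 : 0 < n := by linarith
  have h5 : d + α * w ≤ x * M + α * M := by
    have := mul_le_mul_of_nonneg_left hw hα0.le
    linarith
  have h6 : (d + α * w) * n ≤ (x * M + α * M) * n := mul_le_mul_of_nonneg_right h5 hn0.le
  have h7 : (x * n + κ + α * (n + 1)) * M - (x * M + α * M) * n = κ * M + α * M := by ring
  have h8 : 0 < κ * M := mul_pos hκ (by linarith)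
  have h9 : 0 < α * M := mul_pos hα0 (by linarith)
  linarith

lemma num_A2 (hs : 1 ≤ s) (hsr : s ≤ r - 1) (hn : n = r + s) (hM : r ≤ M)
    (hκ : 0 < κ) (hα : α * (2 * s) = κ * (2 * r - 1)) (hd : d ≤ x * M) (hw : w ≤ M + 1) :
    (d + α * w) * n < (x * n + κ + α * (n + 1)) * M := by
  have hα0 : 0 < α := by
    by_contra h
    push Not at h
    have h1 : α * (2 * s) ≤ 0 := mul_nonpos_of_nonpos_of_nonneg h (by linarith)
    have h2 : 0 < κ * (2 * r - 1) := mul_pos hκ (by linarith)
    linarith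
  have hn0 : 0 < n := by linarith
  have h5 : d + α * w ≤ x * M + α * (M + 1) := by
    have := mul_le_mul_of_nonneg_left hw hα0.le
    linarith
  have h6 : (d + α * w) * n ≤ (x * M + α * (M + 1)) * n := mul_le_mul_of_nonneg_right h5 hn0.le
  have h7 : (x * n + κ + α * (n + 1)) * M - (x * M + α * (M + 1)) * n =
      κ * M - α * (n - M) := by ring
  have h8 : α * (n - M) ≤ α * s := mul_le_mul_of_nonneg_left (by linarith) hα0.le
  have h9 : κ * r ≤ κ * M := mul_le_mul_of_nonneg_left hM hκ.le
  have h10 : α * s = κ * r - κ / 2 := by linarith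
  linarith

end numerics

variable {k : Type u} {K : Type v} [Field k] [Field K] [Algebra k K]

lemma independent_sigma {r s n : ℕ} {e : Fin r ⊕ Fin s ≃ Fin n} {h : Fin (r + 1) → K}
    (J : Submodule K (Fin n → K)) (σ : Fin s → k × (Fin n → k))
    (hσ : ∀ i, Phi k e h (σ i) ∈ J ∧ ∀ i', (σ i).2 (e (Sum.inr i')) = if i = i' then 1 else 0) :
    s ≤ Module.finrank K J := by
  have hcoord : ∀ i i', Phi k e h (σ i) (e (Sum.inr i')) = if i = i' then 1 else 0 := by
    intro i i'
    have h2 : Phi k e h (σ i) (e (Sum.inr i')) =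
        (σ i).1 • dualVec e h (e (Sum.inr i')) + algebraMap k K ((σ i).2 (e (Sum.inr i'))) := rfl
    rw [h2, dualVec_inr, smul_zero, zero_add, (hσ i).2 i']
    split_ifs <;> simp
  have hind : LinearIndependent K (fun i : Fin s => (⟨Phi k e h (σ i), (hσ i).1⟩ : J)) := by
    rw [Fintype.linearIndependent_iff]
    intro c hc i0
    have h1 := congrArg (fun z : J => (z : Fin n → K) (e (Sum.inr i0))) hc
    simp only [AddSubmonoidClass.coe_finsetSum, Submodule.coe_smul, Finset.sum_apply,
      Pi.smul_apply, hcoord, smul_eq_mul, mul_ite, mul_one, mul_zero, Finset.sum_ite_eq',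
      Finset.mem_univ, if_true, Submodule.coe_zero, Pi.zero_apply] at h1
    exact h1
  have := hind.fintype_card_le_finrank
  rwa [Fintype.card_fin] at this

theorem stable_II [IsAlgClosed k] [CharZero k] (hK : IsCurveField k K) {r s n : ℕ} (hs : 1 ≤ s)
    (hsr : s < r) (hn : n = r + s)
    (hmin : ∀ t : ℕ, 1 ≤ t → t ≤ n → gon k K r * t ≤ gon k K t * r)
    (hgr : (r : ℤ) + 1 ≤ gon k K r) (m : ℕ) (hm1 : s * gon k K r < m * r)
    (hm2 : m * r ≤ s * gon k K r + r) : gon k K r + m ∈ stableDegrees k K n (n + 1) := by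
  classical
  have hr : 1 ≤ r := by omega
  obtain ⟨h, hh, hg⟩ := exists_gon hK (k := k) r
  have h00 : h 0 ≠ 0 := hh.ne_zero 0
  let e : Fin r ⊕ Fin s ≃ Fin n := finSumFinEquiv.trans (finCongr hn.symm)
  -- the special points
  have hbad : HasFiniteSupport (fun P : Place k K => P.minOrd h - P.ord (h 0)) :=
    (hasFiniteSupport_minOrd hK h).fun_sub (hasFiniteSupport_ord hK (h 0))
  have hinf : ((Set.univ : Set (Place k K)) \
      (support fun P : Place k K => P.minOrd h - P.ord (h 0))).Infinite :=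
    (infinite_place hK).sdiff hbad
  let ep := hinf.natEmbedding
  let p : Fin m → Place k K := fun q => (ep q : Place k K)
  have hp : Injective p := by
    intro q q' hq
    have h1 := ep.injective (Subtype.ext hq)
    exact Fin.ext h1
  have hpm : ∀ q, (p q).minOrd h = (p q).ord (h 0) := by
    intro q
    have h1 := (ep q).2.2
    rw [mem_support, not_not] at h1
    have h2 : (p q).minOrd h - (p q).ord (h 0) = 0 := h1
    omega
  have hπ : ∀ q, ∃ π : K, π ≠ 0 ∧ (p q).ord π = 1 := fun q => (p q).exists_ord_eq_one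
  choose π hπ0 hπ1 using hπ
  have hinfk : Infinite k := IsAlgClosed.instInfinite
  let a : Fin m → k := fun q => Infinite.natEmbedding k q
  have ha : Injective a := by
    intro q q' hq
    exact Fin.ext ((Infinite.natEmbedding k).injective hq)
  have hub : ∀ q, ∀ l : Fin r, ∃ c : k, - h l.succ / h 0 - algebraMap k K c = 0 ∨
      0 < (p q).ord (- h l.succ / h 0 - algebraMap k K c) := by
    intro q l
    apply exists_residue hK
    right
    rw [Place.ord_div _ _ _ (neg_ne_zero.2 (hh.ne_zero _)) h00, Place.ord_neg, ← hpm q]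
    have := (p q).minOrd_le h l.succ
    omega
  choose ub hub using hub
  let c : Fin m → Fin s → k := fun q i => a q ^ (i : ℕ)
  have hdim : s * (r + 1) < m * r := by
    have h1 : (s : ℤ) * (r + 1) ≤ s * gon k K r := mul_le_mul_of_nonneg_left hgr (by positivity)
    have h2 : (s : ℤ) * (r + 1) < m * r := lt_of_le_of_lt h1 hm1
    exact_mod_cast h2
  obtain ⟨τ, hτ⟩ := exists_tau c ub hdim
  let z : Fin m → Fin n → K := fun q => zvec e (π q) (τ q) (c q)
  let iz : Fin n := e (Sum.inr ⟨0, hs⟩)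
  have hziz : ∀ q, z q iz = (π q)⁻¹ := by
    intro q
    show zvec e (π q) (τ q) (c q) (e (Sum.inr ⟨0, hs⟩)) = _
    rw [zvec_inr]
    simp [c]
  have hcases : ∀ i : Fin n, (∃ l : Fin r, i = e (Sum.inl l)) ∨ (∃ l : Fin s, i = e (Sum.inr l)) := by
    intro i
    rcases hi : e.symm i with l | l
    · left; exact ⟨l, by rw [← hi, Equiv.apply_symm_apply]⟩
    · right; exact ⟨l, by rw [← hi, Equiv.apply_symm_apply]⟩
  obtain ⟨E, hEdeg, hEint, hEd, hEz, -⟩ := exists_bundle hK e h hh p hp hpm z iz
    (fun q => by rw [hziz]; exact inv_ne_zero (hπ0 q))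
    (fun q => by rw [hziz, Place.ord_inv, hπ1])
    (fun q i => by
      rw [hziz]
      have h1 : ∀ b : k, (p q).IsInt ((π q)⁻¹ * algebraMap k K b / (π q)⁻¹) := by
        intro b
        rw [mul_comm, mul_div_assoc, div_self (inv_ne_zero (hπ0 q)), mul_one]
        exact (p q).isInt_algebraMap b
      rcases hcases i with ⟨l, rfl⟩ | ⟨l, rfl⟩
      · show (p q).IsInt (zvec e (π q) (τ q) (c q) (e (Sum.inl l)) / (π q)⁻¹)
        rw [zvec_inl]; exact h1 _
      · show (p q).IsInt (zvec e (π q) (τ q) (c q) (e (Sum.inr l)) / (π q)⁻¹)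
        rw [zvec_inr]; exact h1 _)
  have hdeg : E.deg = gon k K r + m := by
    rw [hEdeg, hg]
  have hsys := isSystem_secV E hEint hEd
  -- real parameters
  obtain ⟨g, hgdef⟩ : ∃ g : ℝ, g = (gon k K r : ℝ) := ⟨_, rfl⟩
  have hr0 : (0 : ℝ) < r := by exact_mod_cast (show 0 < r by omega)
  have hs1 : (1 : ℝ) ≤ s := by exact_mod_cast hs
  have hs0 : (0 : ℝ) < s := by linarith
  have hsr' : (s : ℝ) ≤ r - 1 := by
    have : (s : ℝ) + 1 ≤ r := by exact_mod_cast hsr
    linarith
  have hn' : (n : ℝ) = r + s := by exact_mod_cast hn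
  set x : ℝ := g / r with hxdef
  have hxr : x * r = g := div_mul_cancel₀ g hr0.ne'
  have hgr' : (r : ℝ) + 1 ≤ g := by rw [hgdef]; exact_mod_cast hgr
  have hx1 : 1 ≤ x := by
    rw [hxdef, le_div_iff₀ hr0]; linarith
  set κ : ℝ := m - s * x with hκdef
  have hκ0 : 0 < κ := by
    have h1 : (s : ℝ) * g < m * r := by rw [hgdef]; exact_mod_cast hm1
    have h2 : (s * x) * r < m * r := by rw [mul_assoc, hxr]; exact h1
    have h3 := lt_of_mul_lt_mul_right h2 hr0.le
    rw [hκdef]; linarith
  have hκ1 : κ ≤ 1 := by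
    have h1 : (m : ℝ) * r ≤ s * g + r := by rw [hgdef]; exact_mod_cast hm2
    have h2 : (m : ℝ) * r ≤ (s * x + 1) * r := by rw [add_mul, mul_assoc, hxr, one_mul]; exact h1
    have h3 := le_of_mul_le_mul_right h2 hr0
    rw [hκdef]; linarith
  set α : ℝ := κ * (2 * r - 1) / (2 * s) with hαdef
  have hα : α * (2 * s) = κ * (2 * r - 1) := div_mul_cancel₀ _ (by linarith)
  have hα0 : 0 < α := by
    rw [hαdef]
    apply div_pos (mul_pos hκ0 (by linarith)) (by linarith)
  have hED : (E.deg : ℝ) = x * n + κ := by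
    rw [hdeg, hκdef, hn']
    push_cast
    rw [← hgdef, ← hxr]
    ring
  have hxt : ∀ t : ℕ, 1 ≤ t → t ≤ n → x * t ≤ gon k K t := by
    intro t ht1 htn
    have h1 : (g : ℝ) * t ≤ gon k K t * r := by rw [hgdef]; exact_mod_cast hmin t ht1 htn
    rw [hxdef, div_mul_eq_mul_div, div_le_iff₀ hr0]
    exact h1
  refine ⟨α, hα0, E, secV k e h, hsys, finrank_secV hr hh, hdeg, ?_⟩
  intro M F j W hM hsub hnw
  have hMn := le_rank_of_injective j hsub.injective
  rcases hMn.lt_or_eq with hlt | heq
  swap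
  · subst heq
    exact slope_full hK (by omega) E _ inferInstance _ hα0 F j W hsub hnw
  obtain ⟨e'⟩ := exists_sum_equiv hMn
  obtain ⟨T, f, G, H, S⟩ := exists_split hK (secV k e h) inferInstance span_secV x hxt _
    (startSet e') (startRows e' j) rfl (startRows_indep e' j hsub.injective)
  have hn0 : (0 : ℝ) < n := by rw [hn']; linarith
  have hM0 : (0 : ℝ) < M := by exact_mod_cast hM
  have hM1 : (1 : ℝ) ≤ M := by exact_mod_cast hM
  have hMn' : (M : ℝ) ≤ n := by exact_mod_cast hMn
  rw [finrank_secV hr hh, hED, div_lt_div_iff₀ hM0 hn0]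
  push_cast
  have hwle := finrank_sub_le hsub
  have hJM := finrank_range_of_injective j hsub.injective
  by_cases hT : T.Nonempty
  · -- there is a trivial quotient
    obtain ⟨hTs, hA⟩ := case_A hK hh E hsys p hp π hπ0 hπ1 a ha τ hEz F j hsub.map_mem e' x T f G H
      S hT
    have hTs' : (T.card : ℝ) ≤ s := by exact_mod_cast hTs
    have hd : (F.deg : ℝ) ≤ x * M := by
      rw [hED, hn'] at hA
      have h1 : 0 ≤ (s - T.card : ℝ) * (x - 1) := mul_nonneg (by linarith) (by linarith)
      rw [hκdef] at hA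
      nlinarith
    have h2 := factA (e := e) (h := h) (k := k) hr hh (LinearMap.range j)
    rw [hJM] at h2
    by_cases hw : Module.finrank k W ≤ M
    · have hw' : (Module.finrank k W : ℝ) ≤ M := by exact_mod_cast hw
      exact num_A1 hs1 hsr' hn' hM1 hκ0 hα hd hw'
    · have h3 := (factA' (e := e) (h := h) (k := k) hr hh (LinearMap.range j)
        (by rw [hJM]; omega)).2.2
      rw [hJM] at h3
      have h4 : Module.finrank k W ≤ M + 1 := by omega
      have hw' : (Module.finrank k W : ℝ) ≤ M + 1 := by exact_mod_cast h4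
      exact num_A2 hs1 hsr' hn' (by exact_mod_cast h3) hκ0 hα hd hw'
  · rw [Finset.not_nonempty_iff_eq_empty] at hT
    subst hT
    have hplain := deg_bound_plain hK E _ hsys F j hsub.map_mem e' x ∅ f G H S
    have hd : (F.deg : ℝ) ≤ x * M + κ := by
      rw [hED, Finset.card_empty] at hplain
      push_cast at hplain
      nlinarith
    have hb : ∀ μ : (Fin n → K) →ₗ[K] K, (∀ z ∈ LinearMap.range j, μ z = 0) →
        (∀ v ∈ secV k e h, μ v ∈ Set.range (algebraMap k K)) → μ = 0 := by
      intro μ hμ hμV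
      have h1 := S.func μ (by
        intro i hi
        obtain ⟨a, _, rfl⟩ := Finset.mem_image.1 hi
        rw [startRows_inl]
        exact hμ _ ⟨_, rfl⟩) hμV
      have h2 : Submodule.span K (Set.range f) = ⊤ := by
        apply S.indep.span_eq_top_of_card_eq_finrank'
        simp
      apply LinearMap.ext_on_range h2
      intro i
      rw [h1 i (Finset.notMem_empty i), LinearMap.zero_apply]
    obtain ⟨h3, h4⟩ := factB (e := e) (h := h) (k := k) hr hh (LinearMap.range j)
      (by rw [hJM]; exact hlt) hb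
    rw [hJM] at h3 h4
    by_cases hw : Module.finrank k W + 1 ≤ M
    · have hw' : (Module.finrank k W : ℝ) ≤ M - 1 := by
        have : (Module.finrank k W : ℝ) + 1 ≤ M := by exact_mod_cast hw
        linarith
      exact num_B1 hs1 hsr' hn' hM1 hκ0 hα hd hw'
    · have hw1 : Module.finrank k W ≤ M := by omega
      have hw' : (Module.finrank k W : ℝ) ≤ M := by exact_mod_cast hw1
      by_cases hMs : s + 1 ≤ M
      · exact num_B2 hs1 hsr' hn' (by exact_mod_cast hMs) hκ0 hα hd hw'
      · rcases h4 (by omega) with h5 | ⟨σ, hσ⟩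
        · omega
        · have h6 := independent_sigma (e := e) (h := h) (LinearMap.range j) σ hσ
          rw [hJM] at h6
          have hMs' : M = s := by omega
          let e'' : Fin M ⊕ Fin r ≃ Fin n := finSumFinEquiv.trans (finCongr (by omega))
          have h7 := special_bound hK hh E hEint hEd p hpm π hπ0 hπ1 c τ ub hub hEz F j
            hsub.map_mem e'' σ hσ (hτ (fun i => (σ i).1) (fun i l => (σ i).2 (e (Sum.inl l))))
          have h8 : F.deg ≤ m - 1 := by
            rw [hdeg] at h7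
            omega
          have h9 : (F.deg : ℝ) ≤ s * x + κ - 1 := by
            have : (F.deg : ℝ) ≤ m - 1 := by exact_mod_cast h8
            rw [hκdef]; linarith
          exact num_B3 hs1 hsr' hn' (by exact_mod_cast hMs') hκ0 hκ1 hα h9 hw'

end Pool.Agent.MP_09eaec
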